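import Pool.Agent.H950.ON.St

/-!
ON project of helper950, task O11: a box which meets both sides of the path is near the path.
-/

set_option autoImplicit false

namespace Pool.Agent.H323.ON

open Pool.Agent.X136.ON Pool.Agent.H950.ON

theorem W_C {D : TD} {F : Finset Hx} {h : Hx} (hh : h ∈ D.W) : h ∈ D.C F :=
  ⟨h, hh, Relation.ReflTransGen.refl⟩

theorem W_not_Z {D : TD} {h : Hx} (hh : h ∈ D.W) : h ∉ D.Z := by
  intro hz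
  have h1 : h.1 ≤ D.w h.2 := hh
  have h2 : D.z h.2 ≤ h.1 := hz
  have h3 := D.lt h.2
  omega

theorem W_R {D : TD} {F : Finset Hx} {h : Hx} (hh : h ∈ D.W) : h ∈ D.R F := by
  rintro ⟨u, hu, hc⟩
  rcases Relation.ReflTransGen.cases_tail hc with h1 | ⟨c, -, h1⟩
  · subst h1
    exact W_not_Z hh hu
  · exact h1.2.2 (W_C hh)

theorem Z_R {D : TD} {F : Finset Hx} {h : Hx} (hh : h ∈ D.Z) : h ∉ D.R F := by
  intro h1
  exact h1 ⟨h, hh, Relation.ReflTransGen.refl⟩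

/-- an edge of the domain between the two sides -/
theorem mem_Gam {D : TD} {F : Finset Hx} {e : Ed} (h1 : D.lo ≤ (s1 e).2 ∧ (s1 e).2 ≤ D.hi)
    (h2 : D.lo ≤ (s2 e).2 ∧ (s2 e).2 ≤ D.hi) (h3 : ¬ (s1 e ∈ D.R F ↔ s2 e ∈ D.R F)) :
    e ∈ D.Gam F := by
  refine ⟨D.mem_E.2 ⟨h1, h2, fun h => ?_, fun h => ?_⟩, h3⟩
  · exact h3 ⟨fun _ => W_R h.2, fun _ => W_R h.1⟩
  · exact h3 ⟨fun h4 => absurd h4 (Z_R h.1), fun h4 => absurd h4 (Z_R h.2)⟩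

theorem edge_A {D : TD} {F : Finset Hx} {y : ℤ} (hy : D.lo ≤ y ∧ y ≤ D.hi)
    (hz : D.z y = D.w y + 1) : ((D.w y, y, Dir.A) : Ed) ∈ D.Gam F := by
  refine mem_Gam hy hy ?_
  have h1 : s1 ((D.w y, y, Dir.A) : Ed) ∈ D.R F := W_R (le_refl (D.w y))
  have h2 : s2 ((D.w y, y, Dir.A) : Ed) ∉ D.R F := Z_R (show D.z y ≤ D.w y + 1 from hz.le)
  intro h
  exact h2 (h.1 h1)

/-- two neighbours in the box on different sides -/
theorem box_edge (S : Set Hx) {x1 x2 y1 y2 : ℤ}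
    (h1 : ∃ h ∈ S, (x1 ≤ h.1 ∧ h.1 ≤ x2) ∧ (y1 ≤ h.2 ∧ h.2 ≤ y2))
    (h2 : ∃ h, h ∉ S ∧ (x1 ≤ h.1 ∧ h.1 ≤ x2) ∧ (y1 ≤ h.2 ∧ h.2 ≤ y2)) :
    ∃ e : Ed, ((x1 ≤ (s1 e).1 ∧ (s1 e).1 ≤ x2) ∧ (y1 ≤ (s1 e).2 ∧ (s1 e).2 ≤ y2)) ∧
      ((x1 ≤ (s2 e).1 ∧ (s2 e).1 ≤ x2) ∧ (y1 ≤ (s2 e).2 ∧ (s2 e).2 ≤ y2)) ∧
      ¬ (s1 e ∈ S ↔ s2 e ∈ S) := by
  by_contra hcon
  push Not at hcon
  have key : ∀ e : Ed, ((x1 ≤ (s1 e).1 ∧ (s1 e).1 ≤ x2) ∧ (y1 ≤ (s1 e).2 ∧ (s1 e).2 ≤ y2)) →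
      ((x1 ≤ (s2 e).1 ∧ (s2 e).1 ≤ x2) ∧ (y1 ≤ (s2 e).2 ∧ (s2 e).2 ≤ y2)) →
      (s1 e ∈ S ↔ s2 e ∈ S) := by
    intro e a b
    exact hcon e a b
  have hA : ∀ j, y1 ≤ j → j ≤ y2 → ∀ i, x1 ≤ i → i ≤ x2 → (((i, j) : Hx) ∈ S ↔
      ((x1, j) : Hx) ∈ S) := by
    intro j hj1 hj2 i hi
    induction i, hi using Int.leInduction with
    | base => exact fun _ => Iff.rfl
    | succ i hi ih =>
      intro hi2
      have h3 := key (i, j, Dir.A) ⟨⟨hi, by show i ≤ x2; omega⟩, hj1, hj2⟩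
        ⟨⟨by show x1 ≤ i + 1; omega, hi2⟩, hj1, hj2⟩
      exact h3.symm.trans (ih (by omega))
  have hB : ∀ i, x1 ≤ i → i ≤ x2 → ∀ j, y1 ≤ j → j ≤ y2 → (((i, j) : Hx) ∈ S ↔
      ((i, y1) : Hx) ∈ S) := by
    intro i hi1 hi2 j hj
    induction j, hj using Int.leInduction with
    | base => exact fun _ => Iff.rfl
    | succ j hj ih =>
      intro hj2
      have h3 := key (i, j, Dir.B) ⟨⟨hi1, hi2⟩, hj, by show j ≤ y2; omega⟩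
        ⟨⟨hi1, hi2⟩, by show y1 ≤ j + 1; omega, hj2⟩
      exact h3.symm.trans (ih (by omega))
  obtain ⟨⟨i, j⟩, hS, ⟨a1, a2⟩, a3, a4⟩ := h1
  obtain ⟨⟨i', j'⟩, hS', ⟨b1, b2⟩, b3, b4⟩ := h2
  simp only at a1 a2 a3 a4 b1 b2 b3 b4
  apply hS'
  rw [hA j' b3 b4 i' b1 b2, hB x1 le_rfl (by omega) j' b3 b4]
  rwa [hA j a3 a4 i a1 a2, hB x1 le_rfl (by omega) j a3 a4] at hS

theorem lip_top (D : TD) {y : ℤ} (hy : D.hi ≤ y) : |D.w y - D.w D.hi| ≤ y - D.hi := by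
  induction y, hy using Int.leInduction with
  | base => simp
  | succ y hy ih =>
    have h1 := D.stop y hy
    rw [abs_le] at *
    omega

theorem lip_bot (D : TD) {y : ℤ} (hy : y ≤ D.lo) : |D.w y - D.w D.lo| ≤ D.lo - y := by
  induction y, hy using Int.leInductionDown with
  | base => simp
  | pred y hy ih =>
    have h1 := D.sbot (y - 1) (by omega)
    rw [sub_add_cancel] at h1
    rw [abs_le] at *
    omega

/-- the rows of the two hexagons of an edge -/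
theorem rows (e : Ed) : (s2 e).2 = (s1 e).2 ∨ (s2 e).2 = (s1 e).2 + 1 := by
  obtain ⟨i, j, d⟩ := e
  cases d <;> simp [s1, s2]

theorem t_con : Pool.Agent.H950.ON.S_con := by
  intro D F hF x1 x2 y1 y2 k hk hy2 hy1 h1 h2
  obtain ⟨e, ⟨⟨a1, a2⟩, a3, a4⟩, ⟨⟨b1, b2⟩, b3, b4⟩, hne⟩ := box_edge (D.R F) h1 h2
  have hrow := rows e
  -- the hexagon on the left and the one on the right
  obtain ⟨f, g, hf, hg, ⟨f1, f2⟩, ⟨f3, f4⟩, ⟨g1, g2⟩, ⟨g3, g4⟩, hfg1, hfg2⟩ : ∃ f g : Hx,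
      f ∈ D.R F ∧ g ∉ D.R F ∧ (x1 ≤ f.1 ∧ f.1 ≤ x2) ∧ (y1 ≤ f.2 ∧ f.2 ≤ y2) ∧
      (x1 ≤ g.1 ∧ g.1 ≤ x2) ∧ (y1 ≤ g.2 ∧ g.2 ≤ y2) ∧
      (min (s1 e).2 (s2 e).2 ≤ f.2 ∧ f.2 ≤ max (s1 e).2 (s2 e).2) ∧
      (min (s1 e).2 (s2 e).2 ≤ g.2 ∧ g.2 ≤ max (s1 e).2 (s2 e).2) := by
    by_cases hs : s1 e ∈ D.R F
    · have ht : s2 e ∉ D.R F := fun ht => hne ⟨fun _ => ht, fun _ => hs⟩
      exact ⟨s1 e, s2 e, hs, ht, ⟨a1, a2⟩, ⟨a3, a4⟩, ⟨b1, b2⟩, ⟨b3, b4⟩,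
        ⟨min_le_left _ _, le_max_left _ _⟩, ⟨min_le_right _ _, le_max_right _ _⟩⟩
    · have ht : s2 e ∈ D.R F := by
        by_contra ht
        exact hne ⟨fun h => absurd h hs, fun h => absurd h ht⟩
      exact ⟨s2 e, s1 e, ht, hs, ⟨b1, b2⟩, ⟨b3, b4⟩, ⟨a1, a2⟩, ⟨a3, a4⟩,
        ⟨min_le_right _ _, le_max_right _ _⟩, ⟨min_le_left _ _, le_max_left _ _⟩⟩
  by_cases hin : (D.lo ≤ (s1 e).2 ∧ (s1 e).2 ≤ D.hi) ∧ (D.lo ≤ (s2 e).2 ∧ (s2 e).2 ≤ D.hi)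
  · exact ⟨e, mem_Gam hin.1 hin.2 hne, ⟨by omega, by omega⟩, by omega, by omega⟩
  · have hcase : (D.hi ≤ (s1 e).2 ∧ D.hi ≤ (s2 e).2) ∨ ((s1 e).2 ≤ D.lo ∧ (s2 e).2 ≤ D.lo) := by
      have := D.lohi
      omega
    rcases hcase with ⟨c1, c2⟩ | ⟨c1, c2⟩
    · -- above
      have hf2 : D.hi ≤ f.2 := by omega
      have hg2 : D.hi ≤ g.2 := by omega
      have zf := D.top f.2 hf2
      have zg := D.top g.2 hg2
      have hfW : f.1 ≤ D.w f.2 := by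
        by_contra hc
        exact Z_R (F := F) (show D.z f.2 ≤ f.1 by omega) hf
      have hgZ : D.w g.2 + 1 ≤ g.1 := by
        by_contra hc
        exact hg (W_R (show g.1 ≤ D.w g.2 by omega))
      have l1 := abs_le.1 (lip_top D hf2)
      have l2 := abs_le.1 (lip_top D hg2)
      have hlohi := D.lohi
      refine ⟨(D.w D.hi, D.hi, Dir.A), edge_A ⟨by omega, le_rfl⟩ (D.top _ le_rfl), ⟨?_, ?_⟩, ?_, ?_⟩
      · show x1 - k - 1 ≤ D.w D.hi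
        omega
      · show D.w D.hi ≤ x2 + k + 1
        omega
      · show y1 - k - 1 ≤ D.hi
        omega
      · show D.hi ≤ y2 + k + 1
        omega
    · -- below
      have hf2 : f.2 ≤ D.lo := by omega
      have hg2 : g.2 ≤ D.lo := by omega
      have zf := D.bot f.2 hf2
      have zg := D.bot g.2 hg2
      have hfW : f.1 ≤ D.w f.2 := by
        by_contra hc
        exact Z_R (F := F) (show D.z f.2 ≤ f.1 by omega) hf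
      have hgZ : D.w g.2 + 1 ≤ g.1 := by
        by_contra hc
        exact hg (W_R (show g.1 ≤ D.w g.2 by omega))
      have l1 := abs_le.1 (lip_bot D hf2)
      have l2 := abs_le.1 (lip_bot D hg2)
      have hlohi := D.lohi
      refine ⟨(D.w D.lo, D.lo, Dir.A), edge_A ⟨le_rfl, by omega⟩ (D.bot _ le_rfl), ⟨?_, ?_⟩, ?_, ?_⟩
      · show x1 - k - 1 ≤ D.w D.lo
        omega
      · show D.w D.lo ≤ x2 + k + 1
        omega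
      · show y1 - k - 1 ≤ D.lo
        omega
      · show D.lo ≤ y2 + k + 1
        omega

end Pool.Agent.H323.ON
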